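import Mathlib
import Pool.Agent.RM8c.F1

set_option autoImplicit false
open MeasureTheory

namespace Pool.Agent.Results.MP_a25fb7_an.CenteredRadial

/-- the centered Hardy–Littlewood maximal function, with values in `[0,∞]` -/
noncomputable def maxFun {d : ℕ} (f : EuclideanSpace ℝ (Fin d) → ℝ)
    (x : EuclideanSpace ℝ (Fin d)) : ENNReal :=
  ⨆ (r : ℝ) (_ : 0 < r), (volume (Metric.ball x r))⁻¹ * ∫⁻ y in Metric.ball x r, ‖f y‖ₑ

/-- `G` is a weak gradient of `u` -/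
def IsWeakGradient {d : ℕ} (u : EuclideanSpace ℝ (Fin d) → ℝ)
    (G : EuclideanSpace ℝ (Fin d) → EuclideanSpace ℝ (Fin d)) : Prop :=
  ∀ φ : EuclideanSpace ℝ (Fin d) → ℝ, ContDiff ℝ ((⊤ : ℕ∞) : WithTop ℕ∞) φ →
    HasCompactSupport φ → ∀ v : EuclideanSpace ℝ (Fin d),
      ∫ x, u x * fderiv ℝ φ x v = - ∫ x, inner ℝ (G x) v * φ x

/-- For each `d ≥ 1` there is `C` such that for every radial `f ∈ W^{1,1}(ℝ^d)` with weak gradient
`g`, the centered Hardy–Littlewood maximal function (the case `β = 0`) is a.e. finite, locally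
integrable, and has an integrable weak gradient `G` with `∫ |G| ≤ C ∫ |g|`. -/
theorem result :
    ∀ d : ℕ, 1 ≤ d → ∃ C : ℝ, 0 ≤ C ∧
      ∀ (f : EuclideanSpace ℝ (Fin d) → ℝ)
        (g : EuclideanSpace ℝ (Fin d) → EuclideanSpace ℝ (Fin d)),
        (∀ x y : EuclideanSpace ℝ (Fin d), ‖x‖ = ‖y‖ → f x = f y) →
        Integrable f → Integrable g → IsWeakGradient f g →
        (∀ᵐ x ∂(volume : Measure (EuclideanSpace ℝ (Fin d))), maxFun f x < ⊤) ∧
        ∃ G : EuclideanSpace ℝ (Fin d) → EuclideanSpace ℝ (Fin d),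
          Integrable G ∧ LocallyIntegrable (fun x => (maxFun f x).toReal) ∧
          IsWeakGradient (fun x => (maxFun f x).toReal) G ∧
          ∫ x, ‖G x‖ ≤ C * ∫ x, ‖g x‖ := by
  intro d hd
  obtain ⟨n, rfl⟩ : ∃ n, d = n + 1 := ⟨d - 1, by omega⟩
  exact Pool.Agent.RM8c.FINn n

end Pool.Agent.Results.MP_a25fb7_an.CenteredRadial
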